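import Mathlib

set_option autoImplicit false

open Filter Topology

namespace Pool.Agent.H294Z.NotBR

variable {X : Type} [NormedAddCommGroup X] [NormedSpace ℝ X]

/-- Helly's lemma: an element of the bidual is matched, on finitely many functionals, by a vector
of almost the same norm. -/
lemma helly {ι : Type} [Fintype ι] (φ : (X →L[ℝ] ℝ) →L[ℝ] ℝ) (f : ι → (X →L[ℝ] ℝ)) :
    ∃ x : X, (∀ i, f i x = φ (f i)) ∧ ‖x‖ ≤ ‖φ‖ + 1 := by
  classical
  have h0 : ∃ x0 : X, ∀ i, f i x0 = φ (f i) := by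
    let T : X →ₗ[ℝ] (ι → ℝ) := LinearMap.pi fun i => (f i : X →ₗ[ℝ] ℝ)
    by_contra hcon
    have hv : (fun i => φ (f i)) ∉ LinearMap.range T := by
      rintro ⟨x, hx⟩
      exact hcon ⟨x, fun i => congrFun hx i⟩
    obtain ⟨l, hl1, hl2⟩ := Submodule.exists_dual_map_eq_bot_of_notMem hv inferInstance
    have hl : ∀ w : ι → ℝ, l w = ∑ i, w i * l (Pi.single i 1) := by
      intro w
      conv_lhs => rw [← Finset.univ_sum_single w]
      rw [map_sum]
      refine Finset.sum_congr rfl fun i _ => ?_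
      have : (Pi.single i (w i) : ι → ℝ) = w i • (Pi.single i (1 : ℝ) : ι → ℝ) := by
        rw [← Pi.single_smul, smul_eq_mul, mul_one]
      rw [this, map_smul, smul_eq_mul]
    have hz : (∑ i, l (Pi.single i 1) • f i) = 0 := by
      ext x
      have hx : l (T x) = 0 := by
        have : l (T x) ∈ Submodule.map l (LinearMap.range T) :=
          Submodule.mem_map_of_mem ⟨x, rfl⟩
        rw [hl2] at this
        simpa using this
      rw [hl] at hx
      simp only [sum_apply, smul_apply, smul_eq_mul,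
        zero_apply]
      rw [← hx]
      refine Finset.sum_congr rfl fun i _ => ?_
      simp [T, mul_comm]
    apply hl1
    rw [hl]
    have := congrArg φ hz
    rw [map_sum, map_zero] at this
    rw [← this]
    refine Finset.sum_congr rfl fun i _ => ?_
    simp [mul_comm]
  obtain ⟨x0, hx0⟩ := h0
  let N : Submodule ℝ X := ⨅ i, LinearMap.ker (f i : X →ₗ[ℝ] ℝ)
  obtain ⟨g, hg1, hg2⟩ := exists_dual_vector'' ℝ (Submodule.Quotient.mk (p := N) x0)
  have hmk : ∀ x : X, ‖(Submodule.Quotient.mk (p := N) x)‖ ≤ ‖x‖ :=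
    fun x => Submodule.Quotient.norm_mk_le N x
  let g' : X →L[ℝ] ℝ := LinearMap.mkContinuous ((g : (X ⧸ N) →ₗ[ℝ] ℝ).comp N.mkQ) 1 (by
    intro x
    have h1 := g.le_opNorm (Submodule.Quotient.mk (p := N) x)
    have h2 := hmk x
    have h3 := norm_nonneg (Submodule.Quotient.mk (p := N) x)
    simp only [LinearMap.comp_apply, Submodule.mkQ_apply, ContinuousLinearMap.coe_coe]
    nlinarith)
  have hg' : ∀ x, g' x = g (Submodule.Quotient.mk (p := N) x) := fun x => rfl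
  have hg'n : ‖g'‖ ≤ 1 := LinearMap.mkContinuous_norm_le _ zero_le_one _
  have hker : N ≤ LinearMap.ker (g' : X →ₗ[ℝ] ℝ) := by
    intro x hx
    rw [LinearMap.mem_ker, ContinuousLinearMap.coe_coe, hg',
      (Submodule.Quotient.mk_eq_zero N).2 hx, map_zero]
  obtain ⟨c, hc⟩ := (Submodule.mem_span_range_iff_exists_fun ℝ).1
    (mem_span_of_iInf_ker_le_ker (L := fun i => (f i : X →ₗ[ℝ] ℝ)) hker)
  have hc' : g' = ∑ i, c i • f i := by
    ext x
    have := LinearMap.congr_fun hc x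
    simp only [LinearMap.coe_sum, Finset.sum_apply, LinearMap.smul_apply,
      ContinuousLinearMap.coe_coe] at this
    simp only [sum_apply, smul_apply]
    exact this.symm
  have hval : φ g' = g' x0 := by
    rw [hc', map_sum]
    simp only [sum_apply, smul_apply, map_smul, hx0]
  have hle : ‖(Submodule.Quotient.mk (p := N) x0)‖ ≤ ‖φ‖ := by
    have h1 : φ g' ≤ ‖φ‖ * ‖g'‖ := le_trans (le_abs_self _) (φ.le_opNorm g')
    rw [hval, hg', hg2] at h1
    have h2 := norm_nonneg φ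
    have h3 : ‖φ‖ * ‖g'‖ ≤ ‖φ‖ := by nlinarith
    exact le_trans h1 h3
  obtain ⟨m, hm1, hm2⟩ := Submodule.Quotient.norm_mk_lt
    (Submodule.Quotient.mk (p := N) x0) (zero_lt_one' ℝ)
  refine ⟨m, fun i => ?_, by linarith⟩
  have hmem : m - x0 ∈ N := (Submodule.Quotient.eq N).1 hm1
  have := (Submodule.mem_iInf _).1 hmem i
  rw [LinearMap.mem_ker, ContinuousLinearMap.coe_coe, map_sub, hx0] at this
  linarith

lemma annihil_gen {E : Type} [NormedAddCommGroup E] [NormedSpace ℝ E] {ι : Type} [Fintype ι]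
    (φ : E →L[ℝ] ℝ) (d : ℝ) (hd : 0 < d) (l : ι → (E →L[ℝ] ℝ))
    (hφ : ∀ c : ι → ℝ, d ≤ ‖φ - ∑ i, c i • l i‖) :
    ∃ f : E, (∀ i, l i f = 0) ∧ φ f = 1 ∧ ‖f‖ ≤ 2 / d := by
  classical
  let P : Submodule ℝ E := ⨅ i, LinearMap.ker (l i : E →ₗ[ℝ] ℝ)
  let ψ0 : P →L[ℝ] ℝ := φ.comp P.subtypeL
  obtain ⟨ψ, hψ1, hψ2⟩ := exists_extension_norm_eq P ψ0
  have hker : P ≤ LinearMap.ker ((φ - ψ : E →L[ℝ] ℝ) : E →ₗ[ℝ] ℝ) := by
    intro f hf
    rw [LinearMap.mem_ker, ContinuousLinearMap.coe_coe, sub_apply, hψ1 ⟨f, hf⟩]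
    simp [ψ0]
  obtain ⟨c, hc⟩ := (Submodule.mem_span_range_iff_exists_fun ℝ).1
    (mem_span_of_iInf_ker_le_ker (L := fun i => (l i : E →ₗ[ℝ] ℝ)) hker)
  have hψ : ψ = φ - ∑ i, c i • l i := by
    ext f
    have := LinearMap.congr_fun hc f
    simp only [LinearMap.coe_sum, Finset.sum_apply, LinearMap.smul_apply,
      ContinuousLinearMap.coe_coe, sub_apply] at this
    simp only [sub_apply, sum_apply, smul_apply]
    linarith
  have hn : d / 2 < ‖ψ0‖ := by
    rw [← hψ2, hψ]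
    have := hφ c
    linarith
  obtain ⟨p, hp⟩ := ψ0.exists_mul_lt_of_lt_opNorm (by positivity) hn
  have hp0 : ψ0 p = φ p.1 := rfl
  rw [hp0] at hp
  have hpos : 0 < ‖φ p.1‖ := lt_of_le_of_lt (by positivity) hp
  have hne : φ p.1 ≠ 0 := norm_pos_iff.1 hpos
  refine ⟨(φ p.1)⁻¹ • p.1, fun i => ?_, ?_, ?_⟩
  · have := (Submodule.mem_iInf _).1 p.2 i
    rw [LinearMap.mem_ker, ContinuousLinearMap.coe_coe] at this
    simp [this]
  · rw [map_smul, smul_eq_mul, inv_mul_cancel₀ hne]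
  · rw [norm_smul, norm_inv, inv_mul_le_iff₀ hpos]
    have h3 : ‖p‖ = ‖p.1‖ := rfl
    rw [h3] at hp
    rw [mul_div_assoc', le_div_iff₀ hd]
    linarith

/-- A bounded functional that kills finitely many given vectors and on which `φ` takes the
value one. -/
lemma annihil {ι : Type} [Fintype ι] (φ : (X →L[ℝ] ℝ) →L[ℝ] ℝ) (d : ℝ) (hd : 0 < d)
    (hφ : ∀ x : X, d ≤ ‖φ - NormedSpace.inclusionInDoubleDual ℝ X x‖) (x : ι → X) :
    ∃ f : X →L[ℝ] ℝ, (∀ i, f (x i) = 0) ∧ φ f = 1 ∧ ‖f‖ ≤ 2 / d := by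
  refine annihil_gen φ d hd (fun i => NormedSpace.inclusionInDoubleDual ℝ X (x i)) fun c => ?_
  have := hφ (∑ i, c i • x i)
  rw [map_sum] at this
  simpa only [map_smul] using this

lemma far_from_range {Y : Type} [NormedAddCommGroup Y] [NormedSpace ℝ Y] [CompleteSpace X]
    (J : X →ₗᵢ[ℝ] Y) (φ : Y) (h : ∀ x, J x ≠ φ) : ∃ d : ℝ, 0 < d ∧ ∀ x : X, d ≤ ‖φ - J x‖ := by
  have hcl : IsClosed (Set.range J) := J.isometry.isClosedEmbedding.isClosed_range
  have hnot : φ ∈ (Set.range J)ᶜ := by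
    rintro ⟨x, hx⟩
    exact h x hx
  obtain ⟨d, hd, hball⟩ := Metric.isOpen_iff.1 hcl.isOpen_compl φ hnot
  refine ⟨d, hd, fun x => ?_⟩
  by_contra hcon
  push Not at hcon
  refine hball (a := J x) ?_ ⟨x, rfl⟩
  rw [Metric.mem_ball, dist_comm, dist_eq_norm]
  exact hcon

/-- James' triangular biorthogonal sequences in a nonreflexive space. -/
lemma james [CompleteSpace X] (φ : (X →L[ℝ] ℝ) →L[ℝ] ℝ)
    (hφ : ∀ x : X, ∃ f : X →L[ℝ] ℝ, φ f ≠ f x) :
    ∃ (x : ℕ → X) (f : ℕ → (X →L[ℝ] ℝ)) (M C : ℝ), (∀ n, ‖x n‖ ≤ M) ∧ (∀ n, ‖f n‖ ≤ C) ∧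
      (∀ m n, m ≤ n → f m (x n) = 1) ∧ (∀ m n, n < m → f m (x n) = 0) := by
  classical
  obtain ⟨d, hd, hdφ⟩ : ∃ d : ℝ, 0 < d ∧
      ∀ x : X, d ≤ ‖φ - NormedSpace.inclusionInDoubleDual ℝ X x‖ := by
    have key := far_from_range (Y := StrongDual ℝ (StrongDual ℝ X))
      (NormedSpace.inclusionInDoubleDualLi ℝ (E := X)) φ (fun x hx => by
        obtain ⟨f, hf⟩ := hφ x
        have h2 : NormedSpace.inclusionInDoubleDualLi ℝ (E := X) x f = f x := rfl
        rw [hx] at h2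
        exact hf h2)
    exact key
  have step : ∀ s : Finset (X × (X →L[ℝ] ℝ)), ∃ z : X × (X →L[ℝ] ℝ),
      (∀ w ∈ s, z.2 w.1 = 0) ∧ φ z.2 = 1 ∧ ‖z.2‖ ≤ 2 / d ∧ (∀ w ∈ s, w.2 z.1 = φ w.2) ∧
        z.2 z.1 = 1 ∧ ‖z.1‖ ≤ ‖φ‖ + 1 := by
    intro s
    obtain ⟨f, hf1, hf2, hf3⟩ := annihil φ d hd hdφ (fun w : s => w.1.1)
    obtain ⟨x, hx1, hx2⟩ := helly φ (fun o : Option s => o.elim f (fun w => w.1.2))
    refine ⟨(x, f), fun w hw => hf1 ⟨w, hw⟩, hf2, hf3, fun w hw => hx1 (some ⟨w, hw⟩), ?_, hx2⟩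
    have := hx1 none
    simp only [Option.elim] at this
    rw [this, hf2]
  choose F hF using step
  let L : ℕ → Finset (X × (X →L[ℝ] ℝ)) := fun n => Nat.rec ∅ (fun _ s => insert (F s) s) n
  have hL : ∀ n, L (n + 1) = insert (F (L n)) (L n) := fun n => rfl
  have hmem : ∀ m n, m < n → F (L m) ∈ L n := by
    intro m n hmn
    induction n, hmn using Nat.le_induction with
    | base => rw [hL]; exact Finset.mem_insert_self _ _
    | succ n _ ih => rw [hL]; exact Finset.mem_insert_of_mem ih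
  refine ⟨fun n => (F (L n)).1, fun n => (F (L n)).2, ‖φ‖ + 1, 2 / d,
    fun n => (hF _).2.2.2.2.2, fun n => (hF _).2.2.1, fun m n hmn => ?_, fun m n hmn => ?_⟩
  · rcases hmn.lt_or_eq with h | h
    · rw [(hF (L n)).2.2.2.1 _ (hmem m n h), (hF _).2.1]
    · rw [h]; exact (hF _).2.2.2.2.1
  · exact (hF (L m)).1 _ (hmem n m hmn)

/-- A bounded family with constant symmetrised pairing whose functionals tend weak-star to zero
along an ultrafilter. -/
lemma family [CompleteSpace X] (φ : (X →L[ℝ] ℝ) →L[ℝ] ℝ)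
    (hφ : ∀ x : X, ∃ f : X →L[ℝ] ℝ, φ f ≠ f x) :
    ∃ (g : ℕ → X) (h : ℕ → (X →L[ℝ] ℝ)) (M : ℝ) (U : Ultrafilter ℕ), (∀ n, ‖g n‖ ≤ M) ∧
      (∀ i j, h i (g j) + h j (g i) = -2) ∧ ∀ u : X, Tendsto (fun n => h n u) U (𝓝 0) := by
  obtain ⟨x, f, M, C, hM, hC, h1, h0⟩ := james φ hφ
  let U : Ultrafilter ℕ := Ultrafilter.of atTop
  have hU : (U : Filter ℕ) ≤ atTop := Ultrafilter.of_le _
  let F : ℕ → WeakDual ℝ X := fun n => StrongDual.toWeakDual (f (n + 1))
  have hcomp := WeakDual.isCompact_closedBall (𝕜 := ℝ) (E := X) (0 : StrongDual ℝ X) C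
  obtain ⟨ψ, -, hψ⟩ := hcomp.ultrafilter_le_nhds (U.map F) (by
    rw [Ultrafilter.coe_map, Filter.le_principal_iff, Filter.mem_map]
    refine Filter.univ_mem' fun n => ?_
    simpa [F] using hC (n + 1))
  have hlim : ∀ u : X, Tendsto (fun n => f (n + 1) u) U (𝓝 (ψ u)) := by
    intro u
    have h2 : Tendsto F U (𝓝 ψ) := hψ
    exact ((WeakDual.eval_continuous u).tendsto ψ).comp h2
  have hψx : ∀ k, ψ (x k) = 0 := by
    intro k
    have h2 : Tendsto (fun n => f (n + 1) (x k)) U (𝓝 0) := by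
      refine tendsto_const_nhds.congr' ?_
      filter_upwards [hU (eventually_ge_atTop k)] with n hn
      exact (h0 (n + 1) k (by have : k ≤ n := hn; omega)).symm
    exact tendsto_nhds_unique (hlim _) h2
  let ψ' : X →L[ℝ] ℝ := WeakDual.toStrongDual ψ
  have hψ' : ∀ u, ψ' u = ψ u := fun u => rfl
  refine ⟨fun n => x (n + 1) + x n, fun n => ψ' - f (n + 1), M + M, U, fun n => ?_,
    fun i j => ?_, fun u => ?_⟩
  · exact le_trans (norm_add_le _ _) (add_le_add (hM _) (hM _))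
  · simp only [sub_apply, map_add, hψ', hψx]
    rcases lt_trichotomy i j with h | h | h
    · rw [h1 (i + 1) (j + 1) (by omega), h1 (i + 1) j (by omega), h0 (j + 1) (i + 1) (by omega),
        h0 (j + 1) i (by omega)]
      norm_num
    · subst h
      rw [h1 (i + 1) (i + 1) le_rfl, h0 (i + 1) i (by omega)]
      norm_num
    · rw [h1 (j + 1) (i + 1) (by omega), h1 (j + 1) i (by omega), h0 (i + 1) (j + 1) (by omega),
        h0 (i + 1) j (by omega)]
      norm_num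
  · have := (tendsto_const_nhds (x := ψ u)).sub (hlim u)
    simpa [hψ'] using this

theorem main [CompleteSpace X]
    (hX : ∃ φ : (X →L[ℝ] ℝ) →L[ℝ] ℝ, ∀ x : X, ∃ f : X →L[ℝ] ℝ, φ f ≠ f x) :
    ∃ A : Set (X × (X →L[ℝ] ℝ)),
      (∀ p ∈ A, ∀ q ∈ A, 0 ≤ (p.2 - q.2) (p.1 - q.1)) ∧
      (∀ z : X × (X →L[ℝ] ℝ), (∀ p ∈ A, 0 ≤ (z.2 - p.2) (z.1 - p.1)) → z ∈ A) ∧
      ∃ (x : X) (xs : X →L[ℝ] ℝ) (α β : ℝ), 0 < α ∧ 0 < β ∧
        (∃ c : ℝ, -(α * β) < c ∧ ∀ p ∈ A, c ≤ (p.2 - xs) (p.1 - x)) ∧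
        ∀ p ∈ A, ¬ (‖p.1 - x‖ < α ∧ ‖p.2 - xs‖ < β) := by
  obtain ⟨φ, hφ⟩ := hX
  obtain ⟨g, h, M0, U, hM0, hc, hlim⟩ := family φ hφ
  obtain ⟨M, hMpos, hM⟩ : ∃ M : ℝ, 0 < M ∧ ∀ n, ‖g n‖ ≤ M :=
    ⟨max M0 1, lt_of_lt_of_le one_pos (le_max_right _ _),
      fun n => le_trans (hM0 n) (le_max_left _ _)⟩
  have hd : ∀ i, h i (g i) = -1 := fun i => by have := hc i i; linarith
  let W : Set (X × (X →L[ℝ] ℝ)) := {w | ∀ i, w.2 (g i) + h i w.1 = 0}
  let S : Set (Set (X × (X →L[ℝ] ℝ))) :=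
    {A | A ⊆ W ∧ ∀ p ∈ A, ∀ q ∈ A, 0 ≤ (p.2 - q.2) (p.1 - q.1)}
  obtain ⟨A, hA0, hAmax⟩ := zorn_subset_nonempty S (by
    intro c hcS hchain _
    refine ⟨⋃₀ c, ⟨?_, ?_⟩, fun s hs => Set.subset_sUnion_of_mem hs⟩
    · rintro w ⟨s, hs, hw⟩
      exact (hcS hs).1 hw
    · rintro p ⟨s, hs, hp⟩ q ⟨t, ht, hq⟩
      rcases hchain.total hs ht with hst | hst
      · exact (hcS ht).2 p (hst hp) q hq
      · exact (hcS hs).2 p hp q (hst hq)) {0} (by
    refine ⟨?_, ?_⟩
    · rintro w rfl i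
      simp
    · rintro p rfl q rfl
      simp)
  have hAW : A ⊆ W := hAmax.prop.1
  have hAm := hAmax.prop.2
  have h0A : (0 : X × (X →L[ℝ] ℝ)) ∈ A := hA0 rfl
  have hext : ∀ w ∈ W, (∀ p ∈ A, 0 ≤ (w.2 - p.2) (w.1 - p.1)) → w ∈ A := by
    intro w hw hrel
    have hS : insert w A ∈ S := by
      refine ⟨Set.insert_subset hw hAW, ?_⟩
      rintro p (rfl | hp) q (rfl | hq)
      · simp
      · exact hrel q hq
      · have := hrel p hp
        simp only [sub_apply, map_sub] at this ⊢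
        linarith
      · exact hAm p hp q hq
    exact hAmax.le_of_ge hS (Set.subset_insert _ _) (Set.mem_insert _ _)
  have hskew : ∀ (i : ℕ) (t : ℝ), ((t • (g i - g 0), t • (h i - h 0)) : X × (X →L[ℝ] ℝ)) ∈ A := by
    intro i t
    apply hext
    · intro j
      have e1 := hc i j
      have e2 := hc 0 j
      simp only [smul_apply, sub_apply, map_smul, map_sub,
        smul_eq_mul]
      linear_combination t * e1 - t * e2
    · intro p hp
      have e0 := hAm p hp 0 h0A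
      have e1 := hAW hp i
      have e2 := hAW hp 0
      have e3 := hd i
      have e4 := hd 0
      have e5 := hc i 0
      simp only [Prod.snd_zero, Prod.fst_zero, sub_zero] at e0
      simp only [smul_apply, sub_apply, map_smul, map_sub,
        smul_eq_mul]
      have : t * (t * (h i (g i) - h 0 (g i)) - p.2 (g i) - (t * (h i (g 0) - h 0 (g 0)) - p.2 (g 0)))
          - (t * (h i p.1 - h 0 p.1) - p.2 p.1) = p.2 p.1 := by
        linear_combination (t * t) * e3 + (t * t) * e4 - (t * t) * e5 - t * e1 + t * e2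
      linarith
  refine ⟨A, hAm, fun z hz => ?_, g 0, h 0, M, 2 / M, hMpos, by positivity, ⟨-1, ?_, ?_⟩, ?_⟩
  · have hconst : ∀ i, z.2 (g i) + h i z.1 = z.2 (g 0) + h 0 z.1 := by
      intro i
      by_contra hne
      set D : ℝ := z.2 (g i) + h i z.1 - (z.2 (g 0) + h 0 z.1) with hD
      have hD0 : D ≠ 0 := sub_ne_zero.2 hne
      have e := hz _ (hskew i ((z.2 z.1 + 1) / D))
      have e3 := hd i
      have e4 := hd 0
      have e5 := hc i 0
      set t : ℝ := (z.2 z.1 + 1) / D with ht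
      have htD : t * D = z.2 z.1 + 1 := by rw [ht]; field_simp
      simp only [smul_apply, sub_apply, map_smul, map_sub,
        smul_eq_mul] at e
      have : z.2 z.1 - t * (h i z.1 - h 0 z.1) - t * (z.2 (g i) - t * (h i (g i) - h 0 (g i))
          - (z.2 (g 0) - t * (h i (g 0) - h 0 (g 0)))) = -1 := by
        rw [hD] at htD
        linear_combination (t * t) * e3 + (t * t) * e4 - (t * t) * e5 - htD
      linarith
    set c : ℝ := (z.2 (g 0) + h 0 z.1) / 2 with hcdef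
    have hwW : ((z.1 + c • g 0, z.2 + c • h 0) : X × (X →L[ℝ] ℝ)) ∈ W := by
      intro i
      have e1 := hconst i
      have e2 := hc i 0
      simp only [smul_apply, add_apply, map_smul, map_add,
        smul_eq_mul]
      linear_combination e1 + c * e2 - 2 * hcdef
    have hrel : ∀ p ∈ A, c * c ≤ (z.2 + c • h 0 - p.2) (z.1 + c • g 0 - p.1) := by
      intro p hp
      have e0 := hz p hp
      have e2 := hAW hp 0
      have e4 := hd 0
      simp only [smul_apply, sub_apply,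
        add_apply, map_smul, map_sub, map_add, smul_eq_mul] at e0 ⊢
      have : z.2 z.1 + c * h 0 z.1 - p.2 z.1 + c * (z.2 (g 0) + c * h 0 (g 0) - p.2 (g 0))
          - (z.2 p.1 + c * h 0 p.1 - p.2 p.1)
          = c * c + (z.2 z.1 - p.2 z.1 - (z.2 p.1 - p.2 p.1)) := by
        linear_combination (c * c) * e4 - c * e2 - 2 * c * hcdef
      linarith
    have hwA := hext _ hwW (fun p hp => le_trans (mul_self_nonneg c) (hrel p hp))
    have hc0 : c = 0 := by
      have := hrel _ hwA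
      simp only [sub_self, map_zero] at this
      exact mul_self_eq_zero.1 (le_antisymm this (mul_self_nonneg c))
    rw [hc0] at hwA
    simpa using hwA
  · have : M * (2 / M) = 2 := by field_simp
    rw [this]; norm_num
  · intro p hp
    have e0 := hAm p hp 0 h0A
    have e2 := hAW hp 0
    have e4 := hd 0
    simp only [Prod.snd_zero, Prod.fst_zero, sub_zero] at e0
    simp only [sub_apply, map_sub]
    linarith
  · rintro p hp ⟨-, hlt⟩
    have hT : Tendsto (fun i => (p.2 - h 0) (g i)) U (𝓝 2) := by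
      have h1 := ((tendsto_const_nhds (x := (2 : ℝ))).sub (hlim p.1)).add (hlim (g 0))
      simp only [sub_zero, add_zero] at h1
      refine h1.congr fun i => ?_
      have e1 := hAW hp i
      have e2 := hc i 0
      simp only [sub_apply]
      linarith
    have hle : (2 : ℝ) ≤ ‖p.2 - h 0‖ * M := by
      refine le_of_tendsto' hT fun i => ?_
      exact le_trans (le_abs_self _) (le_trans ((p.2 - h 0).le_opNorm (g i))
        (mul_le_mul_of_nonneg_left (hM i) (norm_nonneg _)))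
    rw [lt_div_iff₀ hMpos] at hlt
    linarith

end Pool.Agent.H294Z.NotBR
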